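import Mathlib
import Pool.Agent.SpanHom.Defs
import Pool.Agent.SpanHom.Blocks
import Pool.Agent.SpanHom.TwoK2

set_option autoImplicit false

/-!
# The homological span of degree-zero chromatic symmetric homology

For every graph `G` on `n ≥ 2` vertices, with `b` blocks and `c` connected components,
`n + 1 - b - c ≤ span₀(G) ≤ n - 1`; in particular `n - b ≤ span₀(G) ≤ n - 1` for connected `G`.
For two disjoint edges `span₀ < n - b`, so that the lower bound `n - b` fails for disconnected
graphs.
-/

namespace Pool.Agent.Results.MP_5bcb58_co.SpanZeroBounds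

open Pool.Agent.SpanHom

theorem result :
    (∀ n : ℕ, 2 ≤ n → ∀ G : SimpleGraph (Fin n),
      ∃ s, IsSpan G s ∧ s ≤ n - 1 ∧ n + 1 ≤ s + numBlocks G + numComponents G) ∧
    (∃ G : SimpleGraph (Fin 4), ∀ s, IsSpan G s → s + numBlocks G < 4) :=
  ⟨fun _ hn G => span_bounds hn G, twoK2, fun _ h => span_twoK2 h⟩

end Pool.Agent.Results.MP_5bcb58_co.SpanZeroBounds
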